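import Pool.Agent.W555.GL.Stm

/-! Towers and complements. -/

set_option autoImplicit false

namespace Pool.Agent.W563.GL.Tow

open Pool.Agent.W555.GL

variable {L : Type} [CompleteLattice L] {rk : L → ℕ} {r : ℕ}

lemma rk_le (h : RkData L rk r) {x y : L} (hxy : x ≤ y) : rk x ≤ rk y := by
  rcases eq_or_lt_of_le hxy with e | e
  · rw [e]
  · exact (h.mono x y e).le

lemma eq_of_rk (h : RkData L rk r) {x y : L} (hxy : x ≤ y) (hr : rk y ≤ rk x) : x = y := by
  rcases eq_or_lt_of_le hxy with e | e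
  · exact e
  · have := h.mono x y e
    omega

lemma seg (h : RkData L rk r) : ∀ (n : ℕ) (x y : L), x ≤ y → rk y - rk x = n →
    ∃ Y : ℕ → L, (∀ i, rk x ≤ i → i ≤ rk y → rk (Y i) = i) ∧
      (∀ i j, rk x ≤ i → i ≤ j → j ≤ rk y → Y i ≤ Y j) ∧ Y (rk x) = x ∧ Y (rk y) = y := by
  intro n
  induction n with
  | zero =>
    intro x y hxy hn
    have e := eq_of_rk h hxy (by omega)
    subst e
    exact ⟨fun _ => x, fun i h1 h2 => le_antisymm h1 h2, fun _ _ _ _ _ => le_refl _, rfl, rfl⟩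
  | succ n ih =>
    intro x y hxy hn
    have hlt : x < y := lt_of_le_of_ne hxy (fun e => by subst e; omega)
    obtain ⟨a, ha, hay, hax⟩ := h.gen x y hlt
    have h1 := h.atom x a ha hax
    obtain ⟨Y, p1, p2, p3, p4⟩ := ih (x ⊔ a) y (sup_le hxy hay) (by omega)
    refine ⟨fun i => if i ≤ rk x then x else Y i, ?_, ?_, ?_, ?_⟩
    · intro i hi hi2
      show rk (if i ≤ rk x then x else Y i) = i
      by_cases c : i ≤ rk x
      · rw [if_pos c]; omega
      · rw [if_neg c]; exact p1 i (by omega) hi2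
    · intro i j hi hij hj
      show (if i ≤ rk x then x else Y i) ≤ (if j ≤ rk x then x else Y j)
      by_cases c : i ≤ rk x
      · by_cases c2 : j ≤ rk x
        · rw [if_pos c, if_pos c2]
        · rw [if_pos c, if_neg c2]
          calc x ≤ x ⊔ a := le_sup_left
            _ = Y (rk (x ⊔ a)) := p3.symm
            _ ≤ Y j := p2 _ _ (le_refl _) (by omega) hj
      · rw [if_neg c, if_neg (by omega)]
        exact p2 i j (by omega) hij hj
    · show (if rk x ≤ rk x then x else Y (rk x)) = x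
      rw [if_pos (le_refl _)]
    · show (if rk y ≤ rk x then x else Y (rk y)) = y
      rw [if_neg (by omega)]
      exact p4

theorem towA : StTowA := by
  intro L _ rk r h x y hxy
  obtain ⟨Y1, a1, a2, a3, a4⟩ := seg h _ ⊥ x bot_le rfl
  obtain ⟨Y2, b1, b2, b3, b4⟩ := seg h _ x y hxy rfl
  have hle := rk_le h hxy
  have hb := h.bot
  refine ⟨fun i => if i ≤ rk x then Y1 i else Y2 i, ⟨?_, ?_⟩, ?_, ?_⟩
  · intro i hi
    show rk (if i ≤ rk x then Y1 i else Y2 i) = i
    by_cases c : i ≤ rk x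
    · rw [if_pos c]; exact a1 i (by omega) c
    · rw [if_neg c]; exact b1 i (by omega) hi
  · intro i j hij hj
    show (if i ≤ rk x then Y1 i else Y2 i) ≤ (if j ≤ rk x then Y1 j else Y2 j)
    by_cases c : i ≤ rk x
    · by_cases c2 : j ≤ rk x
      · rw [if_pos c, if_pos c2]
        exact a2 i j (by omega) hij c2
      · rw [if_pos c, if_neg c2]
        calc Y1 i ≤ Y1 (rk x) := a2 i _ (by omega) c (le_refl _)
          _ = Y2 (rk x) := by rw [a4, b3]
          _ ≤ Y2 j := b2 _ _ (le_refl _) (by omega) hj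
    · rw [if_neg c, if_neg (by omega)]
      exact b2 i j (by omega) hij hj
  · show (if rk x ≤ rk x then Y1 (rk x) else Y2 (rk x)) = x
    rw [if_pos (le_refl _)]
    exact a4
  · show (if rk y ≤ rk x then Y1 (rk y) else Y2 (rk y)) = y
    by_cases c : rk y ≤ rk x
    · rw [if_pos c]
      have e := eq_of_rk h hxy c
      rw [← e]
      exact a4
    · rw [if_neg c]
      exact b4

lemma ext (h : RkData L rk r) (F : L) : ∀ (n : ℕ) (Y0 : L), r - rk (F ⊔ Y0) = n →
    rk (F ⊔ Y0) = rk F + rk Y0 → ∃ Y : L, Compl rk r F Y ∧ Y0 ≤ Y := by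
  intro n
  induction n with
  | zero =>
    intro Y0 hn h0
    have e : F ⊔ Y0 = ⊤ := eq_of_rk h le_top (by rw [h.top]; omega)
    refine ⟨Y0, ⟨e, ?_⟩, le_refl _⟩
    rw [← h0, e, h.top]
  | succ n ih =>
    intro Y0 hn h0
    have hlt : F ⊔ Y0 < ⊤ := lt_of_le_of_ne le_top (fun e => by
      have := h.top
      rw [e] at hn
      omega)
    obtain ⟨a, ha, -, hax⟩ := h.gen _ _ hlt
    have h1 := h.atom _ a ha hax
    have h2 := h.atom Y0 a ha (fun e => hax (e.trans le_sup_right))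
    have h3 : F ⊔ (Y0 ⊔ a) = F ⊔ Y0 ⊔ a := (sup_assoc _ _ _).symm
    obtain ⟨Y, hY, hle⟩ := ih (Y0 ⊔ a) (by rw [h3]; omega) (by rw [h3]; omega)
    exact ⟨Y, hY, le_sup_left.trans hle⟩

theorem towB : StTowB := by
  intro L _ rk r h F
  constructor
  · obtain ⟨Y, hY, -⟩ := ext h F _ ⊥ rfl (by rw [sup_bot_eq, h.bot, add_zero])
    exact ⟨Y, hY⟩
  · intro f hf hfF
    have h1 := h.atom F f hf hfF
    have h2 := h.atom ⊥ f hf (fun e => hf.1 (le_bot_iff.1 e))
    rw [bot_sup_eq, h.bot] at h2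
    exact ext h F _ f rfl (by rw [h1, h2])

theorem main : StTowA ∧ StTowB := ⟨towA, towB⟩

end Pool.Agent.W563.GL.Tow
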